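import Pool.Agent.H82.BC.Alm

/-!
# Furstenberg's orbit closure conjecture: approximations `exp (- q ^ ε)` by fractions with prime and
almost prime denominators

For every `ε > 0` all primes, with at most `X ^ ε` exceptions up to `X`, are good: every real number `x`
with `|x - c / q| ≤ exp (- q ^ ε)` for infinitely many denominators `q = m p_1 ⋯ p_k`, where the `p_i` are
different good primes `≥ q ^ ε` and `m ≤ q ^ δ`, has dense orbits in all integer bases and satisfies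
Furstenberg's inequality. In particular this holds if `|x - c / p| ≤ exp (- p ^ ε)` for infinitely many
good primes `p`. (These denominators are outside the set of density one of the results on generic
denominators, which says nothing about sets of density zero. In the starting results on special
denominators the approximations are much better.)

Proof. A prime is good if all `b ≤ log p` have order at least `p ^ (ε/3)` modulo `p`. The sums over short
geometric progressions modulo `p_1 ⋯ p_k` are small by the theorem of Bourgain and Chang (for `k = 1` of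
Bourgain, Glibichuk and Konyagin), which is proved in `Pool.Agent.H82.BC.bc`.
-/

set_option autoImplicit false

open Finset Filter Topology

namespace Pool.Agent.Results.MP_c9a594_an.AlmostPrimeDenominators

/-- the closure of the orbit of `x` under `x ↦ b x mod 1` -/
def orb (b : ℕ) (x : ℝ) : Set ℝ := closure (Set.range fun n : ℕ => Int.fract ((b : ℝ) ^ n * x))

/-- the exponential sum of frequency `h` over the first `N` points of the orbit of `x` under the
multiplication by `b` -/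
noncomputable def expSum (b h N : ℕ) (x : ℝ) : ℂ :=
  ∑ i ∈ range N, Complex.exp (2 * Real.pi * ((h : ℝ) * ((b : ℝ) ^ i * x) : ℝ) * Complex.I)

/-- the denominators `q = m ∏ p`, where `p` runs over a finite set `S` of elements of `P` which are at
least `q ^ ε`, and `m ≤ q ^ δ` -/
def Den (P : Set ℕ) (ε δ : ℝ) (q : ℕ) (S : Finset ℕ) : Prop := ∃ m : ℕ,
  (∀ p ∈ S, p ∈ P ∧ (q : ℝ) ^ ε ≤ p) ∧ q = (∏ p ∈ S, p) * m ∧ (m : ℝ) ≤ (q : ℝ) ^ δ

/-- Let `0 < ε ≤ 1`. There are `δ > 0` and a set `P` of primes which contains all but at most `X ^ ε` of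
the primes up to `X`, for all large `X`, with the following properties.

(1) For all `b ≥ 2`, `κ > 0` and `H`, for all large `q = m ∏ p` as in `Den`, all integers `c` which are
not divisible by all of the primes `p ∈ S`, ALL `N ≥ q ^ ε` and all frequencies `1 ≤ h ≤ H` the exponential
sum over the first `N` points of the orbit of `c / q` under the multiplication by `b` is at most `κ N`.

(2) Let `x` be a real number. If for every `K` there are `q ≥ K` and `c` as in (1) such that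
`|x - c / q| ≤ exp (- q ^ ε)`, then the orbit of `x` under the multiplication by `b` is dense in `[0, 1]`
for all `b ≥ 2`, there is one sequence `N_j → ∞` such that for all `b ≥ 2` the first `N_j` points of this
orbit are equidistributed modulo one as `j → ∞`, and Furstenberg's inequality holds for `x` and all
pairs of bases.

(3) In particular these conclusions hold if for every `K` there are a prime `p ≥ K` in `P` and an integer
`c` not divisible by `p` such that `|x - c / p| ≤ exp (- p ^ ε)`. -/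
theorem result (ε : ℝ) (hε : 0 < ε) (hε1 : ε ≤ 1) : ∃ (P : Set ℕ) (δ : ℝ), 0 < δ ∧
    (∀ p ∈ P, p.Prime) ∧
    (∃ X₀ : ℕ, ∀ X : ℕ, X₀ ≤ X →
      (({p : ℕ | p ≤ X ∧ p.Prime ∧ p ∉ P}.ncard : ℕ) : ℝ) ≤ (X : ℝ) ^ ε) ∧
    (∀ b : ℕ, 2 ≤ b → ∀ κ : ℝ, 0 < κ → ∀ H : ℕ, ∃ q₀ : ℕ, ∀ q : ℕ, q₀ ≤ q →
      ∀ S : Finset ℕ, Den P ε δ q S → ∀ c : ℤ, (∃ p ∈ S, ¬ (p : ℤ) ∣ c) →
        ∀ N : ℕ, (q : ℝ) ^ ε ≤ N → ∀ h : ℕ, 1 ≤ h → h ≤ H → ‖expSum b h N (c / q)‖ ≤ κ * N) ∧
    (∀ x : ℝ, (∀ K : ℕ, ∃ q : ℕ, K ≤ q ∧ ∃ S : Finset ℕ, Den P ε δ q S ∧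
        ∃ c : ℤ, (∃ p ∈ S, ¬ (p : ℤ) ∣ c) ∧ |x - c / q| ≤ Real.exp (-(q : ℝ) ^ ε)) →
      (∀ b : ℕ, 2 ≤ b → orb b x = Set.Icc 0 1) ∧
      (∃ N : ℕ → ℕ, Tendsto N atTop atTop ∧ ∀ b : ℕ, 2 ≤ b → ∀ h : ℕ, 1 ≤ h →
        Tendsto (fun j => expSum b h (N j) x / (N j : ℂ)) atTop (𝓝 0)) ∧
      ∀ a b : ℕ, 2 ≤ a → 2 ≤ b → 1 ≤ dimH (orb a x) + dimH (orb b x)) ∧
    (∀ x : ℝ, (∀ K : ℕ, ∃ p ∈ P, K ≤ p ∧ ∃ c : ℤ, ¬ (p : ℤ) ∣ c ∧
        |x - c / p| ≤ Real.exp (-(p : ℝ) ^ ε)) →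
      (∀ b : ℕ, 2 ≤ b → orb b x = Set.Icc 0 1) ∧
      ∀ a b : ℕ, 2 ≤ a → 2 ≤ b → 1 ≤ dimH (orb a x) + dimH (orb b x)) := by
  have main : ∀ x : ℝ, (∀ K : ℕ, ∃ q : ℕ, K ≤ q ∧ ∃ S : Finset ℕ,
        Den {p | Pool.Agent.H82.BC.PE ε p} ε (ε ^ 2 / 12) q S ∧
        ∃ c : ℤ, (∃ p ∈ S, ¬ (p : ℤ) ∣ c) ∧ |x - c / q| ≤ Real.exp (-(q : ℝ) ^ ε)) →
      (∀ b : ℕ, 2 ≤ b → orb b x = Set.Icc 0 1) ∧
      (∃ N : ℕ → ℕ, Tendsto N atTop atTop ∧ ∀ b : ℕ, 2 ≤ b → ∀ h : ℕ, 1 ≤ h →
        Tendsto (fun j => expSum b h (N j) x / (N j : ℂ)) atTop (𝓝 0)) ∧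
      ∀ a b : ℕ, 2 ≤ a → 2 ≤ b → 1 ≤ dimH (orb a x) + dimH (orb b x) := by
    intro x hx
    have hC : Pool.Agent.H82.BC.Conc x := by
      refine Pool.Agent.H82.BC.conc_den hε hε1 fun K => ?_
      obtain ⟨q, hq, S, hS, c, hc, hclose⟩ := hx K
      exact ⟨q, c, hq, ⟨S, hS, hc⟩, hclose⟩
    have key : ∀ b : ℕ, 2 ≤ b → orb b x = Set.Icc 0 1 := fun b hb => hC.dense hb
    refine ⟨key, hC, fun a b _ hb => ?_⟩
    have hd : dimH (orb b x) = 1 := Pool.Agent.Y943.Fu.dimH_orb (key b hb)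
    rw [hd]
    exact le_add_self
  refine ⟨{p | Pool.Agent.H82.BC.PE ε p}, ε ^ 2 / 12, by positivity, fun p hp => hp.1,
    Pool.Agent.H82.BC.count_PE hε, ?_, main, ?_⟩
  · intro b hb κ hκ H
    obtain ⟨q₀, hq₀⟩ := Pool.Agent.H82.BC.sums_den hb hε hε1 hκ H
    refine ⟨max q₀ 1, fun q hq S hS c hc N hN h hh1 hh2 => ?_⟩
    refine hq₀ q ((le_max_left _ _).trans hq) S hS c hc N ?_ h hh1 hh2
    have hq1 : (1 : ℝ) ≤ q := by exact_mod_cast (le_max_right _ _).trans hq
    exact (Real.rpow_le_rpow_of_exponent_le hq1 (by nlinarith)).trans hN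
  · intro x hx
    have h1 := main x fun K => by
      obtain ⟨p, hp, hK, c, hc, hclose⟩ := hx (max K 1)
      have hp1 : (1 : ℝ) ≤ p := by exact_mod_cast (le_max_right _ _).trans hK
      refine ⟨p, (le_max_left _ _).trans hK, {p}, ⟨1, ?_, ?_, ?_⟩, c, ⟨p, mem_singleton_self _, hc⟩,
        hclose⟩
      · intro p' hp'
        rw [mem_singleton] at hp'
        subst hp'
        refine ⟨hp, ?_⟩
        calc (p' : ℝ) ^ ε ≤ (p' : ℝ) ^ (1 : ℝ) := Real.rpow_le_rpow_of_exponent_le hp1 hε1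
          _ = p' := Real.rpow_one _
      · rw [prod_singleton, mul_one]
      · rw [Nat.cast_one]
        exact Real.one_le_rpow hp1 (by positivity)
    exact ⟨h1.1, h1.2.2⟩

end Pool.Agent.Results.MP_c9a594_an.AlmostPrimeDenominators
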