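import Pool.Agent.H82.BC.Asm

/-!
# Furstenberg's orbit closure conjecture: approximations `exp (- q ^ o(1))` by fractions with generic
denominators

There is a set `Q` of natural density one such that every real number `x` with infinitely many
approximations `|x - c / q| ≤ exp (- q ^ δ)`, `q ∈ Q`, for some `δ > 0` (even for some exponents
`δ = θ(q) → 0` which depend only on `q`), has dense orbits in all integer bases, which moreover are
equidistributed along one common sequence of times, and satisfies Furstenberg's inequality for all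
pairs of bases. The starting result `GenericDenominators` needs `δ = 1/2` for the inequality, and
`GenericLiouvilleDense` needs `|x - c / q| ≤ q ^ (- q)` for the density.

Proof. Almost all `q` are of the form `r m` with `m ≤ q ^ (δ/4)` and `r` a product of at most `k`
different primes `p > q ^ γ`, such that `b ^ D` is one modulo the part of `m` coprime to `b` for some
`D ≤ m` and has order at least `q ^ β` modulo every prime factor of `r`. The sums over `N ≥ q ^ β`
consecutive powers of `b ^ D` modulo `r` are small by the theorem of Bourgain and Chang, which is proved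
here (`Pool.Agent.H82.BC.bc`) with the method of Bourgain, Glibichuk and Konyagin: the large spectrum
contains a set `A` of small doubling (Balog, Szemerédi, Gowers) which is nearly invariant under many
multipliers `g ^ j`; the approximate multipliers of `A` nearly form a ring, so they are everything (the
growth of sets in prime fields, and the absence of homomorphisms between different prime fields), and
then some fibre of `A` over a prime factor of `r` is too large for Parseval's identity.
-/

set_option autoImplicit false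

open Finset Filter Topology

namespace Pool.Agent.Results.MP_c9a594_an.GenericStretched

/-- the closure of the orbit of `x` under `x ↦ b x mod 1` -/
def orb (b : ℕ) (x : ℝ) : Set ℝ := closure (Set.range fun n : ℕ => Int.fract ((b : ℝ) ^ n * x))

/-- the exponential sum of frequency `h` over the first `N` points of the orbit of `x` under the
multiplication by `b` -/
noncomputable def expSum (b h N : ℕ) (x : ℝ) : ℂ :=
  ∑ i ∈ range N, Complex.exp (2 * Real.pi * ((h : ℝ) * ((b : ℝ) ^ i * x) : ℝ) * Complex.I)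

/-- There are a set `Q` of positive integers of natural density one and a function `θ` with
`θ(q) → 0` such that the following holds.

(1) For all `b ≥ 2`, `δ > 0`, `κ > 0` and `H`, for all large `q` in `Q`, all integers `c` coprime to `q`, ALL
`N ≥ q ^ δ` and all frequencies `1 ≤ h ≤ H` the exponential sum over the first `N` points of the orbit
of `c / q` under the multiplication by `b` is at most `κ N`.

(2) Let `x` be a real number. If for every `K` there are `q ≥ K` in `Q` and an integer `c` coprime to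
`q` with `|x - c / q| ≤ exp (- q ^ θ(q))`, then the orbit of `x` under the multiplication by `b` is dense
in `[0, 1]` for all `b ≥ 2`, there is one sequence `N_j → ∞` such that for all `b ≥ 2` the first `N_j`
points of this orbit are equidistributed modulo one as `j → ∞`, and the Hausdorff dimensions of the orbit
closures of `x` under the multiplications by `a` and by `b` have a sum of at least one, for all
`a, b ≥ 2`.

(3) The hypothesis of (2) holds if there is `δ > 0` such that for every `K` there are `q ≥ K` in `Q` and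
an integer `c` coprime to `q` with `|x - c / q| ≤ exp (- q ^ δ)`. -/
theorem result : ∃ (Q : Set ℕ) (θ : ℕ → ℝ),
    Tendsto (fun X : ℕ => (({q : ℕ | 1 ≤ q ∧ q ≤ X ∧ q ∈ Q} : Set ℕ).ncard : ℝ) / X)
      atTop (𝓝 1) ∧ Tendsto θ atTop (𝓝 0) ∧
    (∀ b : ℕ, 2 ≤ b → ∀ δ κ : ℝ, 0 < δ → 0 < κ → ∀ H : ℕ, ∃ q₀ : ℕ, ∀ q ∈ Q, q₀ ≤ q →
      ∀ c : ℤ, IsCoprime c q → ∀ N : ℕ, (q : ℝ) ^ δ ≤ N → ∀ h : ℕ, 1 ≤ h → h ≤ H →
        ‖expSum b h N (c / q)‖ ≤ κ * N) ∧
    (∀ x : ℝ, (∀ K : ℕ, ∃ q ∈ Q, K ≤ q ∧ ∃ c : ℤ, IsCoprime c q ∧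
        |x - c / q| ≤ Real.exp (-(q : ℝ) ^ θ q)) →
      (∀ b : ℕ, 2 ≤ b → orb b x = Set.Icc 0 1) ∧
      (∃ N : ℕ → ℕ, Tendsto N atTop atTop ∧ ∀ b : ℕ, 2 ≤ b → ∀ h : ℕ, 1 ≤ h →
        Tendsto (fun j => expSum b h (N j) x / (N j : ℂ)) atTop (𝓝 0)) ∧
      ∀ a b : ℕ, 2 ≤ a → 2 ≤ b → 1 ≤ dimH (orb a x) + dimH (orb b x)) ∧
    (∀ x δ : ℝ, 0 < δ → (∀ K : ℕ, ∃ q ∈ Q, K ≤ q ∧ ∃ c : ℤ, IsCoprime c q ∧
        |x - c / q| ≤ Real.exp (-(q : ℝ) ^ δ)) →
      ∀ K : ℕ, ∃ q ∈ Q, K ≤ q ∧ ∃ c : ℤ, IsCoprime c q ∧
        |x - c / q| ≤ Real.exp (-(q : ℝ) ^ θ q)) := by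
  obtain ⟨W, hDZ, hW⟩ := Pool.Agent.H82.BC.exists_W
  obtain ⟨θ, hθ, hmain⟩ := Pool.Agent.H82.BC.exists_theta hW
  refine ⟨{q | ¬ W q}, θ, Pool.Agent.Y943.Fu.density_one hDZ, hθ, ?_, ?_, ?_⟩
  · intro b hb δ κ hδ hκ H
    obtain ⟨q₀, hq₀⟩ := hW b hb δ κ hδ hκ H
    exact ⟨q₀, fun q hqQ hq c hc N hN h hh1 hh2 => hq₀ q hq hqQ c hc N hN h hh1 hh2⟩
  · intro x hx
    have hC : Pool.Agent.H82.BC.Conc x := by
      refine hmain x fun K => ?_
      obtain ⟨q, hqQ, hq, c, hc, hclose⟩ := hx K
      exact ⟨q, c, hq, ⟨hqQ, hc⟩, hclose⟩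
    have key : ∀ b : ℕ, 2 ≤ b → orb b x = Set.Icc 0 1 := fun b hb => hC.dense hb
    refine ⟨key, hC, fun a b _ hb => ?_⟩
    have hd : dimH (orb b x) = 1 := Pool.Agent.Y943.Fu.dimH_orb (key b hb)
    rw [hd]
    exact le_add_self
  · intro x δ hδ hx K
    obtain ⟨q₀, hq₀⟩ := eventually_atTop.1 (hθ.eventually (gt_mem_nhds hδ))
    obtain ⟨q, hqQ, hq, c, hc, hclose⟩ := hx (max (max K q₀) 1)
    have g1 : K ≤ q := ((le_max_left _ _).trans (le_max_left _ _)).trans hq
    have g2 : q₀ ≤ q := ((le_max_right _ _).trans (le_max_left _ _)).trans hq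
    have g3 : 1 ≤ q := (le_max_right _ _).trans hq
    refine ⟨q, hqQ, g1, c, hc, hclose.trans (Real.exp_le_exp.2 ?_)⟩
    have h1 : (q : ℝ) ^ θ q ≤ (q : ℝ) ^ δ :=
      Real.rpow_le_rpow_of_exponent_le (by exact_mod_cast g3) (hq₀ q g2).le
    linarith

end Pool.Agent.Results.MP_c9a594_an.GenericStretched
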