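import Pool.Agent.H82.PP.Ex

/-!
# Furstenberg's orbit closure conjecture: denominators with a large prime power

The starting result `SmoothLiouville` treats denominators composed of finitely many fixed primes, and
`PeriodicRuns`, `StretchedExponentialRuns` treat denominators `a ^ n m` with `m` small compared with `a ^ n`.
Here the denominator is `p ^ e m`, where `m` is arbitrary, except that the largest prime factor of `m` is
small compared with `p ^ e` (more precisely: the `p`-part of a period of `1 / m` in base `b` is small). The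
number `m` itself may be much larger than `p ^ e`: for instance the denominator can be a factorial, and this
gives all bases `b` at once. So `∑ 1 / (n_k)!` has a dense orbit in all bases if the `n_k` grow fast.

Proof. Let `m ∣ b ^ n₀ (b ^ D - 1)`, `A = b ^ (p (p - 1))` and `B = A ^ D`, and let `p ^ w` be the exact power
of `p` which divides `B - 1`. Lifting the exponent, `p ^ w ≤ b ^ (p ^ 2) p ^ v` if `p ^ v` is the `p`-part of
`D`, and the powers of `B` cover the classes of `1` modulo `p ^ w`. So the points `b ^ n₀ B ^ k c / (p ^ e m)`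
form, modulo one, a progression of difference `1 / p ^ (e - w)`.
-/

set_option autoImplicit false

namespace Pool.Agent.Results.MP_c9a594_an.LargePrimePowers

open Pool.Agent.H82.PP

/-- the closure of the orbit of `x` under `x ↦ b x mod 1` -/
def orb (b : ℕ) (x : ℝ) : Set ℝ := closure (Set.range fun n : ℕ => Int.fract ((b : ℝ) ^ n * x))

theorem ineq_of_dense {b : ℕ} {x : ℝ} (h : orb b x = Set.Icc 0 1) (a : ℕ) :
    1 ≤ dimH (orb a x) + dimH (orb b x) := by
  have hd : dimH (orb b x) = 1 := Pool.Agent.Y943.Fu.dimH_orb h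
  rw [hd]
  exact le_add_self

/-- (1) Let `b ≥ 2` and let `x` be a real number. Suppose that for every `K` there are a prime `p` not
dividing `b`, a fraction `c / (p ^ e m)` with `p` not dividing `c m`, and `n₀`, `D ≥ 1` with
`m ∣ b ^ n₀ (b ^ D - 1)` such that `p ^ e` is at least `K b ^ (p ^ 2)` times the `p`-part of `D` and
`|x - c / (p ^ e m)| ≤ b ^ (- (n₀ + D p ^ e)) / K`. Then the orbit of `x` under the multiplication by `b` is
dense in `[0, 1]`, and Furstenberg's inequality holds for `x` and `a`, `b`, for all `a`.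

(2) The same if for every `K` there is a fraction `c / (p ^ e m)`, `p` not dividing `b c m`, such that
`p ^ e` is at least `K b ^ (p ^ 2)` and at least `K b ^ (p ^ 2)` times every prime factor of `m`, and
`|x - c / (p ^ e m)| ≤ b ^ (- 2 p ^ e m) / K`.

(3) If for every `K` there are `n ≥ K` and an integer `c` with no prime factor `p ≤ K` such that
`|x - c / n!| ≤ (n!) ^ (- n!)` then this holds for all `b ≥ 2`.

(4) It holds for all `b ≥ 2` and `x = ∑ 1 / (u k)!` if `u (k + 1) ≥ 2 ((u k)!) ^ ((u k)!)` for all `k`. -/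
theorem result :
    (∀ b : ℕ, 2 ≤ b → ∀ x : ℝ, (∀ K : ℕ, ∃ (p e m n₀ D : ℕ) (c : ℤ), p.Prime ∧ ¬ p ∣ b ∧ 1 ≤ m ∧
        ¬ p ∣ m ∧ 1 ≤ D ∧ m ∣ b ^ n₀ * (b ^ D - 1) ∧ ¬ (p : ℤ) ∣ c ∧
        K * (b ^ (p ^ 2) * p ^ D.factorization p) ≤ p ^ e ∧
        K * ((b : ℝ) ^ (n₀ + D * p ^ e) * |x - c / ((p ^ e * m : ℕ) : ℝ)|) ≤ 1) →
      orb b x = Set.Icc 0 1 ∧ ∀ a : ℕ, 1 ≤ dimH (orb a x) + dimH (orb b x)) ∧
    (∀ b : ℕ, 2 ≤ b → ∀ x : ℝ, (∀ K : ℕ, ∃ (p e m : ℕ) (c : ℤ), p.Prime ∧ ¬ p ∣ b ∧ 1 ≤ m ∧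
        ¬ p ∣ m ∧ ¬ (p : ℤ) ∣ c ∧ K * b ^ (p ^ 2) ≤ p ^ e ∧
        (∀ r : ℕ, r.Prime → r ∣ m → K * b ^ (p ^ 2) * r ≤ p ^ e) ∧
        K * ((b : ℝ) ^ (2 * (p ^ e * m)) * |x - c / ((p ^ e * m : ℕ) : ℝ)|) ≤ 1) →
      orb b x = Set.Icc 0 1 ∧ ∀ a : ℕ, 1 ≤ dimH (orb a x) + dimH (orb b x)) ∧
    (∀ x : ℝ, (∀ K : ℕ, ∃ n : ℕ, K ≤ n ∧ ∃ c : ℤ, (∀ p : ℕ, p.Prime → p ≤ K → ¬ (p : ℤ) ∣ c) ∧
        |x - c / (n.factorial : ℝ)| ≤ 1 / (n.factorial : ℝ) ^ n.factorial) →
      ∀ b : ℕ, 2 ≤ b → orb b x = Set.Icc 0 1 ∧ ∀ a : ℕ, 1 ≤ dimH (orb a x) + dimH (orb b x)) ∧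
    (∀ u : ℕ → ℕ, (∀ k, 2 * (u k).factorial ^ (u k).factorial ≤ u (k + 1)) →
      ∀ b : ℕ, 2 ≤ b → orb b (∑' k, 1 / ((u k).factorial : ℝ)) = Set.Icc 0 1) := by
  refine ⟨fun b hb x hx => ?_, fun b hb x hx => ?_, fun x hx b hb => ?_, fun u hu b hb => ?_⟩
  · have h : orb b x = Set.Icc 0 1 := local_crit hb hx
    exact ⟨h, ineq_of_dense h⟩
  · have h : orb b x = Set.Icc 0 1 := smooth_crit hb hx
    exact ⟨h, ineq_of_dense h⟩
  · have h : orb b x = Set.Icc 0 1 := factorial_crit hx hb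
    exact ⟨h, ineq_of_dense h⟩
  · exact factorial_crit (series_close hu) hb

end Pool.Agent.Results.MP_c9a594_an.LargePrimePowers
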