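import Pool.Agent.H92.FB.Cnt
import Pool.Agent.N440.FO.Example

/-!
# Furstenberg's orbit closure conjecture: numbers with random exponents

Let `a ≥ 2`, let `c_k` be bounded nonzero integers and `x = ∑ c_k / a ^ (N_k)` with independent random
exponents `N_0 < N_1 < …`.

1. If `N_(k+1) / N_k → ∞` almost surely and, for every `q`, the residue of `N_k` modulo `q` is
asymptotically uniformly distributed, then almost surely `O_a(x)` is countable and `O_b(x) = [0,1]`
for ALL `b ≥ 2` multiplicatively independent of `a`.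

2. Hence every sequence of exponents `n_k` with `n_(k+1) / n_k → ∞` may be changed by arbitrarily
slowly growing amounts, such that the new number has these properties.

3. For the `b` coprime to `a` no condition on the growth or the distribution of the exponents is
needed: it is enough that the law of `x` has no atoms, and the terms may be arbitrary independent
random `a`-adic rationals. The exponential sums over the first `N` points of the orbit divided by `N`
tend to zero in quadratic mean.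
-/

set_option autoImplicit false

open MeasureTheory ProbabilityTheory Set Filter Topology

namespace Pool.Agent.Results.MP_c9a594_an.RandomExponents

open Pool.Agent.H92.FB

universe u

/-- the closure of the orbit of `r` modulo one under multiplication by `m` -/
def O (m : ℕ) (r : ℝ) : Set ℝ := closure (range fun n : ℕ => Int.fract ((m : ℝ) ^ n * r))

/-- multiplicative independence -/
def MulIndep (a b : ℕ) : Prop := ∀ k l : ℕ, 0 < k → 0 < l → a ^ k ≠ b ^ l

/-- The orbit of `r` under multiplication by `b` is dense modulo one, and Furstenberg's inequality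
holds for `b` and every other base. -/
def Good (b : ℕ) (r : ℝ) : Prop :=
  O b r = Icc 0 1 ∧ dimH (O b r) = 1 ∧ ∀ a : ℕ, 1 ≤ dimH (O a r) + dimH (O b r)

/-- the number with the coefficients `c k` and the exponents `n k` in base `a` -/
noncomputable def num (a : ℕ) (c : ℕ → ℤ) (n : ℕ → ℕ) : ℝ := ∑' k, (c k : ℝ) / (a : ℝ) ^ n k

/-- the average of `exp (2 π i h y)` over the first `N` points `y` of the orbit of `r` -/
noncomputable def avg (b N : ℕ) (h : ℤ) (r : ℝ) : ℂ :=
  (∑ n ∈ Finset.range N, Complex.exp (2 * Real.pi * Complex.I * (h * ((b : ℝ) ^ n * r) : ℝ))) / N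

/-- `r` is an integer divided by a power of `a` -/
def Adic (a : ℕ) (r : ℝ) : Prop := ∃ (n : ℕ) (κ : ℤ), r = κ / (a : ℝ) ^ n

theorem good_of_dense {b : ℕ} {r : ℝ}
    (h : Dense (range fun n : ℕ => b ^ n • ((r : ℝ) : AddCircle (1 : ℝ)))) : Good b r := by
  have h1 : O b r = Icc 0 1 := Pool.Agent.W765.Det.closure_fract h
  have h2 : dimH (O b r) = 1 := by
    rw [h1]
    have h3 : (interior (Icc (0 : ℝ) 1)).Nonempty := by
      rw [interior_Icc]; exact ⟨1 / 2, by norm_num, by norm_num⟩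
    rw [Real.dimH_of_nonempty_interior h3]
    simp
  refine ⟨h1, h2, fun a => ?_⟩
  rw [h2]
  exact le_add_self

theorem mulIndep_succ {a : ℕ} (ha : 2 ≤ a) : MulIndep a (a + 1) := by
  intro k l hk _ h
  have h1 : Nat.Coprime (a ^ k) ((a + 1) ^ l) := Nat.Coprime.pow _ _ (by simp)
  rw [← h, Nat.coprime_self] at h1
  have h2 : a ^ 1 ≤ a ^ k := Nat.pow_le_pow_right (by omega) hk
  rw [pow_one] at h2
  omega

theorem avg_eq (b N : ℕ) (h : ℤ) (r : ℝ) :
    ‖avg b N h r‖ ^ 2 =
      ‖∑ n ∈ Finset.range N, Pool.Agent.N440.FO.e ((h * (b : ℝ) ^ n) * r)‖ ^ 2 / (N : ℝ) ^ 2 := by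
  unfold avg Pool.Agent.N440.FO.e
  rw [norm_div, div_pow, Complex.norm_natCast]
  congr 3
  refine Finset.sum_congr rfl fun n _ => ?_
  congr 2
  push_cast
  ring

theorem shift {Ω : Type u} [MeasurableSpace Ω] {μ : Measure Ω} [IsProbabilityMeasure μ] {a b : ℕ}
    {X : Ω → ℝ} (hX : SpreadC μ a b X) (y : ℝ) : SpreadC μ a b fun ω => y + X ω := by
  intro η hη
  obtain ⟨A, hA, hchar, h1, h2⟩ := hX η hη
  refine ⟨A, hA, fun θ => ?_, h1, h2⟩
  refine le_trans (le_of_eq ?_) (hchar θ)
  have h3 : (fun ω => Pool.Agent.N440.FO.e (θ * (y + X ω))) =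
      fun ω => Pool.Agent.N440.FO.e (θ * y) * Pool.Agent.N440.FO.e (θ * X ω) := by
    funext ω
    rw [← Pool.Agent.N440.FO.e_add]
    congr 1
    ring
  rw [h3, integral_const_mul, norm_mul, Pool.Agent.N440.FO.norm_e, one_mul]

/-- **Numbers with random exponents.** -/
theorem result (a : ℕ) (ha : 2 ≤ a) :
    (∀ (c : ℕ → ℤ) (C : ℕ), (∀ k, c k ≠ 0) → (∀ k, |c k| ≤ C) →
      ∀ (Ω : Type u) [MeasurableSpace Ω] (μ : Measure Ω) [IsProbabilityMeasure μ] (N : ℕ → Ω → ℕ),
      (∀ k, Measurable (N k)) → iIndepFun N μ → (∀ ω, 1 ≤ N 0 ω) → (∀ ω, StrictMono fun k => N k ω) →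
      (∀ᵐ ω ∂μ, Tendsto (fun k => (N (k + 1) ω : ℝ) / N k ω) atTop atTop) →
      (∀ q r : ℕ, r < q → Tendsto (fun k => μ.real {ω | N k ω % q = r}) atTop (𝓝 (1 / q))) →
      ∀ᵐ ω ∂μ, (O a (num a c fun k => N k ω)).Countable ∧
        ∀ b : ℕ, 2 ≤ b → MulIndep a b → Good b (num a c fun k => N k ω)) ∧
    (∀ (c : ℕ → ℤ) (C : ℕ), (∀ k, c k ≠ 0) → (∀ k, |c k| ≤ C) →
      ∀ n J : ℕ → ℕ, 1 ≤ n 0 → StrictMono n →
      Tendsto (fun k => (n (k + 1) : ℝ) / n k) atTop atTop → Tendsto J atTop atTop →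
      ∃ u : ℕ → ℕ, (∀ k, u k ≤ J k) ∧ StrictMono (fun k => n k + u k) ∧
        Irrational (num a c fun k => n k + u k) ∧ (O a (num a c fun k => n k + u k)).Countable ∧
        ∀ b : ℕ, 2 ≤ b → MulIndep a b → Good b (num a c fun k => n k + u k)) ∧
    (∀ (Ω : Type u) [MeasurableSpace Ω] (μ : Measure Ω) [IsProbabilityMeasure μ] (Y : ℕ → Ω → ℝ)
      (X : Ω → ℝ) (y : ℝ), (∀ k, Measurable (Y k)) → Measurable X → iIndepFun Y μ →
      (∀ k, ∀ᵐ ω ∂μ, Adic a (Y k ω)) →
      (∀ᵐ ω ∂μ, Tendsto (fun n => ∑ k ∈ Finset.range n, Y k ω) atTop (𝓝 (X ω))) →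
      (∀ t : ℝ, μ {ω | X ω = t} = 0) →
      (∀ b : ℕ, 2 ≤ b → Nat.Coprime a b → ∀ h : ℤ, h ≠ 0 →
        Tendsto (fun N => ∫ ω, ‖avg b N h (y + X ω)‖ ^ 2 ∂μ) atTop (𝓝 0)) ∧
      ∀ᵐ ω ∂μ, ∀ b : ℕ, 2 ≤ b → Nat.Coprime a b → Good b (y + X ω)) := by
  refine ⟨?_, ?_, ?_⟩
  · intro c C hc0 hC Ω _ μ _ N hN hind hpos hmono hratio hE
    filter_upwards [dense_gaps ha hc0 hC hN hind hE hmono hratio, hratio] with ω hω hrω
    refine ⟨countable_XX ha hC (hmono ω) (hpos ω) (gap_of_ratio (hmono ω) hrω), fun b hb hab => ?_⟩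
    exact good_of_dense (hω b hb hab)
  · intro c C hc0 hC n J hn0 hn hr hJ
    obtain ⟨u, hu, hmono, hcount, hdense⟩ := exists_perturb ha hc0 hC hn hn0 hr hJ
    have hgood : ∀ b : ℕ, 2 ≤ b → MulIndep a b → Good b (num a c fun k => n k + u k) :=
      fun b hb hab => good_of_dense (hdense b hb hab)
    refine ⟨u, hu, hmono, ?_, hcount, hgood⟩
    exact Pool.Agent.N440.FO.irrational_of_orbit (hgood (a + 1) (by omega) (mulIndep_succ ha)).1
  · intro Ω _ μ _ Y X y hY hX hind hval hlim hatom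
    have hspread : ∀ b : ℕ, 2 ≤ b → Nat.Coprime a b → SpreadC μ a b fun ω => y + X ω :=
      fun b hb hab => shift (spread_sums ha hb hab hY hind hval hX hlim hatom) y
    have hXm : Measurable fun ω => y + X ω := hX.const_add y
    refine ⟨fun b hb hab h hh => ?_, ?_⟩
    · rw [Metric.tendsto_atTop]
      intro ε hε
      obtain ⟨K, hK⟩ := eventually_atTop.1
        (moment_le (by omega : 0 < a) hb hXm (hspread b hb hab) hh (half_pos hε))
      refine ⟨max K 1, fun N hN => ?_⟩
      have h1 := hK N ((le_max_left _ _).trans hN)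
      have hN1 : (0 : ℝ) < N := by
        have : 1 ≤ N := (le_max_right _ _).trans hN
        exact_mod_cast this
      have h0 : 0 ≤ ∫ ω, ‖avg b N h (y + X ω)‖ ^ 2 ∂μ := integral_nonneg fun ω => by positivity
      rw [Real.dist_eq, sub_zero, abs_of_nonneg h0]
      simp_rw [avg_eq]
      rw [integral_div, div_lt_iff₀ (by positivity)]
      calc _ ≤ (N : ℝ) ^ 2 * (ε / 2) := h1
        _ < ε * (N : ℝ) ^ 2 := by nlinarith [sq_pos_of_pos hN1]
    · rw [ae_all_iff]
      intro b
      by_cases hb : 2 ≤ b ∧ Nat.Coprime a b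
      · filter_upwards [dense_spread (by omega : 0 < a) hb.1 hXm (hspread b hb.1 hb.2)] with ω hω _ _
        exact good_of_dense hω
      · exact Filter.Eventually.of_forall fun ω h1 h2 => absurd ⟨h1, h2⟩ hb

end Pool.Agent.Results.MP_c9a594_an.RandomExponents
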